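import Pool.Agent.Helper70.BI.T.StT

/-!
# Project BI, stage 6 (T), module MUL: concatenation of swept spheres
-/

set_option autoImplicit false

open scoped Topology unitInterval Manifold ContDiff ComplexConjugate
open Set Pool.Agent.Helper65.Barb Pool.Agent.Helper18.BI
open Pool.Agent.Helper18.FinR (sqr)
open Pool.Agent.Helper18.BI.R (S2)

namespace Pool.Agent.Helper70.T

section
variable {X : Type} [TopologicalSpace X]

theorem hcl_eq_of {y : X} {f g : GenLoop (Fin 2) X y} (F : I × (Fin 2 → I) → X)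
    (hF : Continuous F) (h0 : ∀ t, F (0, t) = f t) (h1 : ∀ t, F (1, t) = g t)
    (hb : ∀ u, ∀ t ∈ Cube.boundary (Fin 2), F (u, t) = y) : hcl f = hcl g := by
  refine Quotient.sound ⟨⟨⟨⟨F, hF⟩, h0, h1⟩, ?_⟩⟩
  intro u t ht
  show F (u, t) = f t
  rw [hb u t ht]
  exact (f.2 t ht).symm

theorem Hfree.mk' {f g : (Fin 2 → I) → X} (F : I × (Fin 2 → I) → X) (hF : Continuous F)
    (h0 : ∀ t, F (0, t) = f t) (h1 : ∀ t, F (1, t) = g t)
    (hb : ∀ u, ∀ t ∈ Cube.boundary (Fin 2), ∀ t' ∈ Cube.boundary (Fin 2), F (u, t) = F (u, t')) :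
    Hfree f g := by
  refine ⟨fun z => F (projIcc 0 1 zero_le_one z.1, z.2), ?_, ?_, ?_, ?_⟩
  · exact (hF.comp ((continuous_projIcc.comp continuous_fst).prodMk continuous_snd)).continuousOn
  · intro t
    show F (projIcc 0 1 zero_le_one 0, t) = f t
    rw [projIcc_left]
    exact h0 t
  · intro t
    show F (projIcc 0 1 zero_le_one 1, t) = g t
    rw [projIcc_right]
    exact h1 t
  · intro u _ t ht t' ht'
    exact hb _ t ht t' ht'

theorem Hfree.trans {f g k : (Fin 2 → I) → X} (h : Hfree f g) (h' : Hfree g k) : Hfree f k := by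
  obtain ⟨F, c, a0, a1, ab⟩ := h
  obtain ⟨F', c', b0, b1, bb⟩ := h'
  have cc : Continuous fun z : I × (Fin 2 → I) => F (z.1, z.2) :=
    c.comp_continuous (by fun_prop) fun z => ⟨z.1.2, mem_univ _⟩
  have cc' : Continuous fun z : I × (Fin 2 → I) => F' (z.1, z.2) :=
    c'.comp_continuous (by fun_prop) fun z => ⟨z.1.2, mem_univ _⟩
  let j : I × (Fin 2 → I) → I := fun z => projIcc 0 1 zero_le_one (2 * (z.1 : ℝ))
  let j' : I × (Fin 2 → I) → I := fun z => projIcc 0 1 zero_le_one (2 * (z.1 : ℝ) - 1)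
  have cj : Continuous j := continuous_projIcc.comp (by fun_prop)
  have cj' : Continuous j' := continuous_projIcc.comp (by fun_prop)
  refine Hfree.mk' (fun z => if (z.1 : ℝ) ≤ 1 / 2 then F (j z, z.2) else F' (j' z, z.2)) ?_ ?_ ?_ ?_
  · refine Continuous.if_le (cc.comp (cj.prodMk continuous_snd)) (cc'.comp (cj'.prodMk continuous_snd))
      (by fun_prop) continuous_const ?_
    intro z hz
    have e1 : (j z : ℝ) = 1 := by
      show ((projIcc 0 1 zero_le_one (2 * (z.1 : ℝ)) : I) : ℝ) = 1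
      rw [hz]
      norm_num
    have e2 : (j' z : ℝ) = 0 := by
      show ((projIcc 0 1 zero_le_one (2 * (z.1 : ℝ) - 1) : I) : ℝ) = 0
      rw [hz]
      norm_num
    show F (j z, z.2) = F' (j' z, z.2)
    rw [e1, e2, a1, b0]
  · intro t
    have e1 : (j (0, t) : ℝ) = 0 := by
      show ((projIcc 0 1 zero_le_one (2 * ((0 : I) : ℝ)) : I) : ℝ) = 0
      norm_num
    show (if ((0 : I) : ℝ) ≤ 1 / 2 then F (j (0, t), t) else F' (j' (0, t), t)) = f t
    rw [if_pos (by norm_num), e1, a0]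
  · intro t
    have e1 : (j' (1, t) : ℝ) = 1 := by
      show ((projIcc 0 1 zero_le_one (2 * ((1 : I) : ℝ) - 1) : I) : ℝ) = 1
      norm_num
    show (if ((1 : I) : ℝ) ≤ 1 / 2 then F (j (1, t), t) else F' (j' (1, t), t)) = k t
    rw [if_neg (by norm_num), e1, b1]
  · intro u t ht t' ht'
    show (if (u : ℝ) ≤ 1 / 2 then F (j (u, t), t) else F' (j' (u, t), t)) =
      if (u : ℝ) ≤ 1 / 2 then F (j (u, t'), t') else F' (j' (u, t'), t')
    split_ifs
    · exact ab _ (j (u, t)).2 t ht t' ht'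
    · exact bb _ (j' (u, t)).2 t ht t' ht'

/-- the value of the swept sphere, with two angles -/
noncomputable def TS (A : Act X) (γ : ℝ → X) (a b v t : ℝ) : X :=
  if t ≤ 1 / 2 then (if v ≤ 1 / 2 then A.R a (γ v) else A.R b (γ v)) else γ v

variable {A : Act X} {γ : ℝ → X}

theorem cont_TS {Z : Type} [TopologicalSpace Z] {a b h t : Z → ℝ} (ha : Continuous a)
    (hb : Continuous b) (hh : Continuous h) (ht : Continuous t) (hI : ∀ z, h z ∈ Icc (0 : ℝ) 1)
    (hγ : ContinuousOn γ (Icc (0 : ℝ) 1))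
    (c1 : ∀ z, t z = 1 / 2 → h z ≤ 1 / 2 → A.R (a z) (γ (h z)) = γ (h z))
    (c2 : ∀ z, t z = 1 / 2 → ¬ h z ≤ 1 / 2 → A.R (b z) (γ (h z)) = γ (h z))
    (c3 : ∀ z, h z = 1 / 2 → A.R (a z) (γ (h z)) = A.R (b z) (γ (h z))) :
    Continuous fun z => TS A γ (a z) (b z) (h z) (t z) := by
  have hγh : Continuous fun z => γ (h z) := hγ.comp_continuous hh hI
  refine Continuous.if_le (Continuous.if_le (A.cont.comp (ha.prodMk hγh))
    (A.cont.comp (hb.prodMk hγh)) hh continuous_const c3) hγh ht continuous_const ?_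
  intro z hz
  show (if h z ≤ 1 / 2 then A.R (a z) (γ (h z)) else A.R (b z) (γ (h z))) = γ (h z)
  split_ifs with h1
  · exact c1 z hz h1
  · exact c2 z hz h1

/-! ### the profile functions -/

theorem cont_lam : Continuous lam := by unfold lam; fun_prop
theorem cont_rho : Continuous rho := by unfold rho; fun_prop
theorem cont_tau : Continuous tau := by unfold tau; fun_prop

theorem lam_mem {θ : ℝ} (h0 : 0 ≤ θ) (h1 : θ ≤ 1) : lam θ ∈ Icc (0 : ℝ) 1 := by
  unfold lam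
  refine ⟨le_min zero_le_one (le_min (by linarith) (by linarith)), min_le_left _ _⟩

theorem tau_mem {t : ℝ} (h0 : 0 ≤ t) (h1 : t ≤ 1) : tau t ∈ Icc (0 : ℝ) 1 := by
  unfold tau
  refine ⟨le_min (by linarith) (by linarith), ?_⟩
  rcases le_total t (1 / 2) with h | h
  · exact (min_le_left _ _).trans (by linarith)
  · exact (min_le_right _ _).trans (by linarith)

theorem lam_mid {θ : ℝ} (h0 : 1 / 3 ≤ θ) (h1 : θ ≤ 2 / 3) : lam θ = 1 := by
  unfold lam
  rw [min_eq_left]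
  exact le_min (by linarith) (by linarith)

theorem lam_zero : lam 0 = 0 := by unfold lam; norm_num
theorem lam_one : lam 1 = 0 := by unfold lam; norm_num
theorem tau_half : tau (1 / 2) = 1 := by unfold tau; norm_num
theorem tau_zero : tau 0 = 0 := by unfold tau; norm_num
theorem tau_one : tau 1 = 0 := by unfold tau; norm_num

theorem rho_lo {θ : ℝ} (h : θ ≤ 1 / 3) : rho θ = 0 := by
  unfold rho
  rw [max_eq_left, mul_zero]
  exact (min_le_right _ _).trans (by linarith)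

theorem rho_hi {θ : ℝ} (h : 2 / 3 ≤ θ) : rho θ = 2 * Real.pi := by
  unfold rho
  rw [min_eq_left (by linarith), max_eq_right zero_le_one, mul_one]

theorem rho_mem (θ : ℝ) : rho θ ∈ Icc (0 : ℝ) (2 * Real.pi) := by
  have hp := Real.pi_pos
  unfold rho
  constructor
  · positivity
  · have h1 : max 0 (min 1 (3 * θ - 1)) ≤ 1 := max_le zero_le_one (min_le_left _ _)
    nlinarith

/-- the condition on the angles and the height at the middle line -/
def Gd (a b l : ℝ) : Prop :=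
  0 ≤ l ∧ l ≤ 1 ∧ (a = 0 ∨ a = 2 * Real.pi ∨ 1 / 2 ≤ l) ∧ (b = 0 ∨ b = 2 * Real.pi ∨ l = 1)

theorem R_fix {a : ℝ} (h : a = 0 ∨ a = 2 * Real.pi) (x : X) : A.R a x = x := by
  rcases h with rfl | rfl
  · exact A.zero x
  · exact A.per x

theorem gd_lo (hf : γ (1 / 2) ∈ A.Fix) {a b l : ℝ} (h : Gd a b l) (hl : l ≤ 1 / 2) :
    A.R a (γ l) = γ l := by
  obtain ⟨-, -, h1, -⟩ := h
  rcases h1 with h1 | h1 | h1
  · exact R_fix (Or.inl h1) _
  · exact R_fix (Or.inr h1) _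
  · rw [le_antisymm hl h1]
    exact hf a

theorem gd_hi (h1f : γ 1 ∈ A.Fix) {a b l : ℝ} (h : Gd a b l) : A.R b (γ l) = γ l := by
  obtain ⟨-, -, -, h1⟩ := h
  rcases h1 with h1 | h1 | h1
  · exact R_fix (Or.inl h1) _
  · exact R_fix (Or.inr h1) _
  · rw [h1]
    exact h1f b

/-- the square of the path with given angle and height functions -/
noncomputable def tsq (A : Act X) (γ : ℝ → X) (a b l : ℝ → ℝ) (t : Fin 2 → I) : X :=
  TS A γ (a (t 0)) (b (t 0)) (l (t 0) * tau (t 1)) (t 1)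

theorem mul_tau_mem {l : ℝ} (h0 : 0 ≤ l) (h1 : l ≤ 1) (t : I) : l * tau t ∈ Icc (0 : ℝ) 1 := by
  have h := tau_mem t.2.1 t.2.2
  exact ⟨mul_nonneg h0 h.1, mul_le_one₀ h1 h.1 h.2⟩

theorem mem_bd {t : Fin 2 → I} (h : t ∈ Cube.boundary (Fin 2)) :
    t 0 = 0 ∨ t 0 = 1 ∨ t 1 = 0 ∨ t 1 = 1 := by
  obtain ⟨i, hi⟩ := h
  fin_cases i
  · rcases hi with hi | hi
    · exact Or.inl hi
    · exact Or.inr (Or.inl hi)
  · rcases hi with hi | hi
    · exact Or.inr (Or.inr (Or.inl hi))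
    · exact Or.inr (Or.inr (Or.inr hi))

theorem mul_tau_bd {l : ℝ → ℝ} (h0 : l 0 = 0) (h1 : l 1 = 0) {t : Fin 2 → I}
    (ht : t ∈ Cube.boundary (Fin 2)) : l (t 0) * tau (t 1) = 0 := by
  rcases mem_bd ht with h | h | h | h <;> rw [h]
  · rw [Icc.coe_zero, h0, zero_mul]
  · rw [Icc.coe_one, h1, zero_mul]
  · rw [Icc.coe_zero, tau_zero, mul_zero]
  · rw [Icc.coe_one, tau_one, mul_zero]

theorem TS_zero (hf0 : γ 0 ∈ A.Fix) (a b t : ℝ) : TS A γ a b 0 t = γ 0 := by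
  unfold TS
  rw [if_pos (show (0 : ℝ) ≤ 1 / 2 by norm_num)]
  split_ifs
  · exact hf0 a
  · rfl

theorem cont_tsq {Z : Type} [TopologicalSpace Z] {a b l : Z → ℝ} {s : Z → I} (ha : Continuous a)
    (hb : Continuous b) (hl : Continuous l) (hs : Continuous s) (hγ : ContinuousOn γ (Icc (0 : ℝ) 1))
    (hf : γ (1 / 2) ∈ A.Fix) (h1f : γ 1 ∈ A.Fix) (hG : ∀ z, Gd (a z) (b z) (l z)) :
    Continuous fun z => TS A γ (a z) (b z) (l z * tau (s z)) (s z) := by
  refine cont_TS ha hb (hl.mul (cont_tau.comp (continuous_subtype_val.comp hs)))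
    (continuous_subtype_val.comp hs) (fun z => mul_tau_mem (hG z).1 (hG z).2.1 _) hγ ?_ ?_ ?_
  · intro z hz h
    have e : l z * tau (s z) = l z := by rw [hz, tau_half, mul_one]
    rw [e] at h ⊢
    exact gd_lo hf (hG z) h
  · intro z hz h
    have e : l z * tau (s z) = l z := by rw [hz, tau_half, mul_one]
    rw [e]
    exact gd_hi h1f (hG z)
  · intro z hz
    show A.R _ (γ (l z * tau (s z))) = A.R _ (γ (l z * tau (s z)))
    rw [hz]
    exact (hf _).trans (hf _).symm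

/-- the based square -/
noncomputable def gsq {y₀ : X} (A : Act X) (γ : ℝ → X) (a b l : ℝ → ℝ)
    (ha : Continuous a) (hb : Continuous b) (hl : Continuous l) (l0 : l 0 = 0) (l1 : l 1 = 0)
    (hγ : ContinuousOn γ (Icc (0 : ℝ) 1)) (h0 : γ 0 = y₀) (hf0 : γ 0 ∈ A.Fix)
    (hf : γ (1 / 2) ∈ A.Fix) (h1f : γ 1 ∈ A.Fix)
    (hG : ∀ θ ∈ Icc (0 : ℝ) 1, Gd (a θ) (b θ) (l θ)) : GenLoop (Fin 2) X y₀ :=
  ⟨⟨tsq A γ a b l, cont_tsq (ha.comp (by fun_prop)) (hb.comp (by fun_prop))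
    (hl.comp (by fun_prop)) (by fun_prop) hγ hf h1f fun t => hG _ (t 0).2⟩, by
    intro t ht
    show TS A γ _ _ (l (t 0) * tau (t 1)) _ = y₀
    rw [mul_tau_bd l0 l1 ht, TS_zero hf0, h0]⟩

theorem gd_conv {a b l a' b' l' : ℝ → ℝ} {y₀ : X}
    (ha : Continuous a) (hb : Continuous b) (hl : Continuous l) (l0 : l 0 = 0) (l1 : l 1 = 0)
    (ha' : Continuous a') (hb' : Continuous b') (hl' : Continuous l') (l0' : l' 0 = 0)
    (l1' : l' 1 = 0) (hγ : ContinuousOn γ (Icc (0 : ℝ) 1)) (h0 : γ 0 = y₀) (hf0 : γ 0 ∈ A.Fix)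
    (hf : γ (1 / 2) ∈ A.Fix) (h1f : γ 1 ∈ A.Fix)
    (hG : ∀ u ∈ Icc (0 : ℝ) 1, ∀ θ ∈ Icc (0 : ℝ) 1, Gd ((1 - u) * a θ + u * a' θ)
      ((1 - u) * b θ + u * b' θ) ((1 - u) * l θ + u * l' θ)) {f g : GenLoop (Fin 2) X y₀}
    (hfe : ∀ t, f t = tsq A γ a b l t) (hge : ∀ t, g t = tsq A γ a' b' l' t) : hcl f = hcl g := by
  refine hcl_eq_of (fun z => TS A γ ((1 - (z.1 : ℝ)) * a (z.2 0) + z.1 * a' (z.2 0))
    ((1 - (z.1 : ℝ)) * b (z.2 0) + z.1 * b' (z.2 0))
    (((1 - (z.1 : ℝ)) * l (z.2 0) + z.1 * l' (z.2 0)) * tau (z.2 1)) (z.2 1)) ?_ ?_ ?_ ?_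
  · exact cont_tsq (by fun_prop) (by fun_prop) (by fun_prop) (by fun_prop) hγ hf h1f
      fun z => hG _ z.1.2 _ (z.2 0).2
  · intro t
    rw [hfe]
    simp only [tsq, Icc.coe_zero, sub_zero, one_mul, zero_mul, add_zero]
  · intro t
    rw [hge]
    simp only [tsq, Icc.coe_one, sub_self, one_mul, zero_mul, zero_add]
  · intro u t ht
    have e : ((1 - (u : ℝ)) * l (t 0) + u * l' (t 0)) * tau (t 1) = 0 := by
      have e1 := mul_tau_bd l0 l1 ht
      have e2 := mul_tau_bd l0' l1' ht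
      calc ((1 - (u : ℝ)) * l (t 0) + u * l' (t 0)) * tau (t 1)
          = (1 - (u : ℝ)) * (l (t 0) * tau (t 1)) + u * (l' (t 0) * tau (t 1)) := by ring
        _ = 0 := by rw [e1, e2]; ring
    show TS A γ _ _ (((1 - (u : ℝ)) * l (t 0) + u * l' (t 0)) * tau (t 1)) _ = y₀
    rw [e, TS_zero hf0, h0]

/-! ### the steps -/

/-- the height function with a longer plateau -/
noncomputable def lam2 (θ : ℝ) : ℝ := min 1 (min (6 * θ) (6 - 6 * θ))

/-- the height function of the concatenation -/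
noncomputable def lf (θ : ℝ) : ℝ := max (lam (2 * θ) / 2) (lam (2 * θ - 1))

theorem cont_lam2 : Continuous lam2 := by unfold lam2; fun_prop

theorem cont_lf : Continuous lf := by
  have h := cont_lam
  unfold lf
  fun_prop

theorem lam2_mem {θ : ℝ} (h0 : 0 ≤ θ) (h1 : θ ≤ 1) : lam2 θ ∈ Icc (0 : ℝ) 1 := by
  unfold lam2
  refine ⟨le_min zero_le_one (le_min (by linarith) (by linarith)), min_le_left _ _⟩

theorem lam2_mid {θ : ℝ} (h0 : 1 / 6 ≤ θ) (h1 : θ ≤ 5 / 6) : lam2 θ = 1 := by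
  unfold lam2
  rw [min_eq_left]
  exact le_min (by linarith) (by linarith)

theorem lam_neg {θ : ℝ} (h : θ ≤ 0) : lam θ ≤ 0 := by
  unfold lam
  exact (min_le_right _ _).trans ((min_le_left _ _).trans (by linarith))

theorem lam_neg' {θ : ℝ} (h : 1 ≤ θ) : lam θ ≤ 0 := by
  unfold lam
  exact (min_le_right _ _).trans ((min_le_right _ _).trans (by linarith))

theorem lf_lo {θ : ℝ} (h0 : 0 ≤ θ) (h : θ ≤ 1 / 2) : lf θ = lam (2 * θ) / 2 := by
  unfold lf
  rw [max_eq_left]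
  have h1 := (lam_mem (θ := 2 * θ) (by linarith) (by linarith)).1
  have h2 := lam_neg (θ := 2 * θ - 1) (by linarith)
  linarith

theorem lf_hi {θ : ℝ} (h : 1 / 2 ≤ θ) (h1 : θ ≤ 1) : lf θ = lam (2 * θ - 1) := by
  unfold lf
  rw [max_eq_right]
  have h1 := (lam_mem (θ := 2 * θ - 1) (by linarith) (by linarith)).1
  have h2 := lam_neg' (θ := 2 * θ) (by linarith)
  linarith

theorem lf_mem {θ : ℝ} (h0 : 0 ≤ θ) (h1 : θ ≤ 1) : lf θ ∈ Icc (0 : ℝ) 1 := by
  rcases le_total θ (1 / 2) with h | h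
  · rw [lf_lo h0 h]
    have := lam_mem (θ := 2 * θ) (by linarith) (by linarith)
    exact ⟨by linarith [this.1], by linarith [this.2]⟩
  · rw [lf_hi h h1]
    exact lam_mem (by linarith) (by linarith)

theorem conv_mem {u x y : ℝ} (hu : u ∈ Icc (0 : ℝ) 1) (hx : x ∈ Icc (0 : ℝ) 1)
    (hy : y ∈ Icc (0 : ℝ) 1) : 0 ≤ (1 - u) * x + u * y ∧ (1 - u) * x + u * y ≤ 1 := by
  obtain ⟨u0, u1⟩ := hu
  obtain ⟨x0, x1⟩ := hx
  obtain ⟨y0, y1⟩ := hy
  constructor
  · exact add_nonneg (mul_nonneg (by linarith) x0) (mul_nonneg u0 y0)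
  · nlinarith

theorem conv_self (u x : ℝ) : (1 - u) * x + u * x = x := by ring

theorem gd_B {u θ : ℝ} (hu : u ∈ Icc (0 : ℝ) 1) (hθ : θ ∈ Icc (0 : ℝ) 1) :
    Gd ((1 - u) * rho θ + u * rho θ) ((1 - u) * rho θ + u * rho θ)
      ((1 - u) * lam θ + u * lam2 θ) := by
  rw [conv_self]
  obtain ⟨a1, a2⟩ := conv_mem hu (lam_mem hθ.1 hθ.2) (lam2_mem hθ.1 hθ.2)
  refine ⟨a1, a2, ?_, ?_⟩
  · rcases le_total θ (1 / 3) with h | h
    · exact Or.inl (rho_lo h)
    rcases le_total (2 / 3) θ with h' | h'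
    · exact Or.inr (Or.inl (rho_hi h'))
    · rw [lam_mid h h', lam2_mid (by linarith) (by linarith), conv_self]
      exact Or.inr (Or.inr (by norm_num))
  · rcases le_total θ (1 / 3) with h | h
    · exact Or.inl (rho_lo h)
    rcases le_total (2 / 3) θ with h' | h'
    · exact Or.inr (Or.inl (rho_hi h'))
    · rw [lam_mid h h', lam2_mid (by linarith) (by linarith), conv_self]
      exact Or.inr (Or.inr rfl)

theorem gd_C {u θ : ℝ} (hu : u ∈ Icc (0 : ℝ) 1) (hθ : θ ∈ Icc (0 : ℝ) 1) :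
    Gd ((1 - u) * rho θ + u * rho (2 * θ)) ((1 - u) * rho θ + u * rho (2 * θ - 1))
      ((1 - u) * lam2 θ + u * lam2 θ) := by
  rw [conv_self u (lam2 θ)]
  obtain ⟨a1, a2⟩ := lam2_mem hθ.1 hθ.2
  refine ⟨a1, a2, ?_, ?_⟩
  · rcases le_total θ (1 / 6) with h | h
    · left
      rw [rho_lo (by linarith), rho_lo (by linarith), conv_self]
    rcases le_total (5 / 6) θ with h' | h'
    · right; left
      rw [rho_hi (by linarith), rho_hi (by linarith), conv_self]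
    · rw [lam2_mid h h']
      exact Or.inr (Or.inr (by norm_num))
  · rcases le_total θ (1 / 6) with h | h
    · left
      rw [rho_lo (by linarith), rho_lo (by linarith), conv_self]
    rcases le_total (5 / 6) θ with h' | h'
    · right; left
      rw [rho_hi (by linarith), rho_hi (by linarith), conv_self]
    · rw [lam2_mid h h']
      exact Or.inr (Or.inr rfl)

theorem gd_D {u θ : ℝ} (hu : u ∈ Icc (0 : ℝ) 1) (hθ : θ ∈ Icc (0 : ℝ) 1) :
    Gd ((1 - u) * rho (2 * θ) + u * rho (2 * θ)) ((1 - u) * rho (2 * θ - 1) + u * rho (2 * θ - 1))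
      ((1 - u) * lam2 θ + u * lf θ) := by
  rw [conv_self, conv_self]
  obtain ⟨a1, a2⟩ := conv_mem hu (lam2_mem hθ.1 hθ.2) (lf_mem hθ.1 hθ.2)
  refine ⟨a1, a2, ?_, ?_⟩
  · rcases le_total θ (1 / 6) with h | h
    · exact Or.inl (rho_lo (by linarith))
    rcases le_total (1 / 3) θ with h' | h'
    · exact Or.inr (Or.inl (rho_hi (by linarith)))
    · right; right
      rw [lam2_mid h (by linarith), lf_lo hθ.1 (by linarith), lam_mid (by linarith) (by linarith)]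
      linarith [hu.1, hu.2]
  · rcases le_total θ (2 / 3) with h | h
    · exact Or.inl (rho_lo (by linarith))
    rcases le_total (5 / 6) θ with h' | h'
    · exact Or.inr (Or.inl (rho_hi (by linarith)))
    · right; right
      rw [lam2_mid (by linarith) h', lf_hi (by linarith) hθ.2, lam_mid (by linarith) (by linarith),
        conv_self]

theorem two_pi_gd {θ : ℝ} (hθ : θ ∈ Icc (0 : ℝ) 1) : Gd (2 * Real.pi) (rho θ) (lam θ) := by
  obtain ⟨a1, a2⟩ := lam_mem hθ.1 hθ.2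
  refine ⟨a1, a2, Or.inr (Or.inl rfl), ?_⟩
  rcases le_total θ (1 / 3) with h | h
  · exact Or.inl (rho_lo h)
  rcases le_total (2 / 3) θ with h' | h'
  · exact Or.inr (Or.inl (rho_hi h'))
  · exact Or.inr (Or.inr (lam_mid h h'))

theorem rho_gd {θ : ℝ} (hθ : θ ∈ Icc (0 : ℝ) 1) : Gd (rho θ) (rho θ) (lam θ) := by
  have h := gd_B (u := 0) ⟨le_rfl, zero_le_one⟩ hθ
  simpa using h

/-- the sphere of a path in the parametrization `qq` -/
theorem sph_qq (hPP : StPP) (h0 : γ 0 ∈ A.Fix) (h1 : γ 1 ∈ A.Fix) (t : Fin 2 → I) :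
    A.sph γ (qq t) = tsq A γ rho rho lam t := by
  have hv := mul_tau_mem (lam_mem (t 0).2.1 (t 0).2.2).1 (lam_mem (t 0).2.1 (t 0).2.2).2 (t 1)
  unfold qq tsq TS
  split_ifs with h h'
  · exact hPP.2.1 X A γ h0 h1 _ (rho_mem _) _ hv
  · exact hPP.2.1 X A γ h0 h1 _ (rho_mem _) _ hv
  · rw [hPP.2.1 X A γ h0 h1 0 ⟨le_rfl, by positivity⟩ _ hv]
    exact A.zero _

theorem sph_base (hPP : StPP) (h0 : γ 0 ∈ A.Fix) (h1 : γ 1 ∈ A.Fix) : A.sph γ (1, 0) = γ 0 := by
  have h := hPP.2.1 X A γ h0 h1 0 ⟨le_rfl, by positivity⟩ 0 ⟨le_rfl, zero_le_one⟩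
  have e : PP 0 0 = (1, 0) := by
    unfold PP
    simp
  rw [e] at h
  rw [h]
  exact A.zero _

theorem sph_cont (hPP : StPP) (hγ : ContinuousOn γ (Icc (0 : ℝ) 1)) (h0 : γ 0 ∈ A.Fix)
    (h1 : γ 1 ∈ A.Fix) : ContinuousOn (A.sph γ) S2 := by
  have h := hPP.2.2.2 X Unit A (fun z => γ z.2)
    (hγ.comp continuous_snd.continuousOn fun z hz => hz.2) (fun _ => h0) (fun _ => h1)
  have h' : ContinuousOn (fun m : R3 => ((), m)) S2 := by fun_prop
  exact h.comp h' fun m hm => ⟨mem_univ _, hm⟩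

theorem hfree_qq_sqr (hPP : StPP) (hSQR : StSQR) (hγ : ContinuousOn γ (Icc (0 : ℝ) 1))
    (h0 : γ 0 ∈ A.Fix) (h1 : γ 1 ∈ A.Fix) :
    ∃ F : I × (Fin 2 → I) → X, Continuous F ∧ (∀ t, F (0, t) = tsq A γ rho rho lam t) ∧
      (∀ t, F (1, t) = A.sph γ (sqr t)) ∧ ∀ u, ∀ t ∈ Cube.boundary (Fin 2), F (u, t) = γ 0 := by
  obtain ⟨G, g1, g2, g3, g4, g5⟩ := hSQR
  have gc : Continuous fun z : I × (Fin 2 → I) => G (z.1, z.2) :=
    g1.comp_continuous (by fun_prop) fun z => ⟨z.1.2, mem_univ _⟩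
  refine ⟨fun z => A.sph γ (G (z.1, z.2)), (sph_cont hPP hγ h0 h1).comp_continuous gc
    fun z => g2 _ z.1.2 _, ?_, ?_, ?_⟩
  · intro t
    show A.sph γ (G (((0 : I) : ℝ), t)) = _
    rw [Icc.coe_zero, g3, sph_qq hPP h0 h1]
  · intro t
    show A.sph γ (G (((1 : I) : ℝ), t)) = _
    rw [Icc.coe_one, g4]
  · intro u t ht
    show A.sph γ (G ((u : ℝ), t)) = _
    rw [g5 _ u.2 t ht, sph_base hPP h0 h1]

theorem hcl_qq (hPP : StPP) (hSQR : StSQR) {y₀ : X} (hγ : ContinuousOn γ (Icc (0 : ℝ) 1))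
    (h00 : γ 0 = y₀) (h0 : γ 0 ∈ A.Fix) (h1 : γ 1 ∈ A.Fix) {f g : GenLoop (Fin 2) X y₀}
    (hf : ∀ t, f t = A.sph γ (sqr t)) (hg : ∀ t, g t = tsq A γ rho rho lam t) :
    hcl f = hcl g := by
  obtain ⟨F, f1, f2, f3, f4⟩ := hfree_qq_sqr hPP hSQR hγ h0 h1
  refine (hcl_eq_of F f1 (fun t => ?_) (fun t => ?_) fun u t ht => ?_).symm
  · rw [f2, hg]
  · rw [f3, hf]
  · rw [f4 u t ht, h00]

theorem hcl_trans {y : X} (p q : GenLoop (Fin 2) X y) :
    hcl (GenLoop.transAt 0 p q) = hcl p * hcl q := by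
  have h : hcl q * hcl p = hcl (GenLoop.transAt 0 p q) :=
    HomotopyGroup.mul_spec (i := (0 : Fin 2)) (p := q) (q := p)
  rw [← h, mul_comm]

theorem split_lo {t : Fin 2 → I} (h : (t 0 : ℝ) ≤ 1 / 2) :
    tsq A γ (fun θ => rho (2 * θ)) (fun θ => rho (2 * θ - 1)) lf t =
      tsq A (fun v => γ (v / 2)) rho rho lam
        (Function.update t 0 (projIcc 0 1 zero_le_one (2 * (t 0 : ℝ)))) := by
  have e0 : ((Function.update t 0 (projIcc 0 1 zero_le_one (2 * (t 0 : ℝ))) 0 : I) : ℝ) =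
      2 * (t 0 : ℝ) := by
    rw [Function.update_self, projIcc_of_mem zero_le_one (x := 2 * (t 0 : ℝ))
      ⟨by linarith [(t 0).2.1], by linarith⟩]
  have e1 : Function.update t 0 (projIcc 0 1 zero_le_one (2 * (t 0 : ℝ))) 1 = t 1 :=
    Function.update_of_ne (by decide) _ _
  have hv := mul_tau_mem (lam_mem (θ := 2 * (t 0 : ℝ)) (by linarith [(t 0).2.1]) (by linarith)).1
    (lam_mem (θ := 2 * (t 0 : ℝ)) (by linarith [(t 0).2.1]) (by linarith)).2 (t 1)
  have e2 : lf (t 0) * tau (t 1) = lam (2 * (t 0 : ℝ)) * tau (t 1) / 2 := by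
    rw [lf_lo (t 0).2.1 h]
    ring
  unfold tsq TS
  rw [e0, e1, e2]
  have h2 : lam (2 * (t 0 : ℝ)) * tau (t 1) / 2 ≤ 1 / 2 := by linarith [hv.2]
  rw [if_pos h2]
  split_ifs <;> rfl

theorem split_hi {t : Fin 2 → I} (h : ¬ (t 0 : ℝ) ≤ 1 / 2) :
    tsq A γ (fun θ => rho (2 * θ)) (fun θ => rho (2 * θ - 1)) lf t =
      tsq A γ (fun _ => 2 * Real.pi) rho lam
        (Function.update t 0 (projIcc 0 1 zero_le_one (2 * (t 0 : ℝ) - 1))) := by
  have h' : 1 / 2 < (t 0 : ℝ) := not_le.1 h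
  have e0 : ((Function.update t 0 (projIcc 0 1 zero_le_one (2 * (t 0 : ℝ) - 1)) 0 : I) : ℝ) =
      2 * (t 0 : ℝ) - 1 := by
    rw [Function.update_self, projIcc_of_mem zero_le_one (x := 2 * (t 0 : ℝ) - 1)
      ⟨by linarith, by linarith [(t 0).2.2]⟩]
  have e1 : Function.update t 0 (projIcc 0 1 zero_le_one (2 * (t 0 : ℝ) - 1)) 1 = t 1 :=
    Function.update_of_ne (by decide) _ _
  unfold tsq TS
  dsimp only
  rw [e0, e1, lf_hi h'.le (t 0).2.2, rho_hi (θ := 2 * (t 0 : ℝ)) (by linarith)]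

/-- the free homotopy: moving the base point along the first path -/
theorem hfree_X (hPP : StPP) (hSQR : StSQR) (hγ : ContinuousOn γ (Icc (0 : ℝ) 1))
    (hf0 : γ 0 ∈ A.Fix) (hf : γ (1 / 2) ∈ A.Fix) (h1f : γ 1 ∈ A.Fix) :
    Hfree (tsq A γ (fun _ => 2 * Real.pi) rho lam)
      (fun t => A.sph (fun v => γ (1 / 2 + v / 2)) (sqr t)) := by
  have clam := cont_lam
  have crho := cont_rho
  have ctau := cont_tau
  have hlt : ∀ t : Fin 2 → I, lam (t 0) * tau (t 1) ∈ Icc (0 : ℝ) 1 := fun t =>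
    mul_tau_mem (lam_mem (t 0).2.1 (t 0).2.2).1 (lam_mem (t 0).2.1 (t 0).2.2).2 (t 1)
  -- the value `h = 1` or a trivial rotation
  have key : ∀ (θ : I) (h : ℝ), (lam θ = 1 → h = 1) → A.R (rho θ) (γ h) = γ h := by
    intro θ h hh
    rcases (two_pi_gd θ.2).2.2.2 with h1 | h1 | h1
    · exact R_fix (Or.inl h1) _
    · exact R_fix (Or.inr h1) _
    · rw [hh h1]
      exact h1f _
  -- step 1
  have s1 : Hfree (tsq A γ (fun _ => 2 * Real.pi) rho lam)
      (fun t => TS A γ (2 * Real.pi) (rho (t 0)) (max (lam (t 0) * tau (t 1)) (1 / 2)) (t 1)) := by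
    refine Hfree.mk' (fun z => TS A γ (2 * Real.pi) (rho (z.2 0))
      (max (lam (z.2 0) * tau (z.2 1)) ((z.1 : ℝ) / 2)) (z.2 1)) ?_ ?_ ?_ ?_
    · refine cont_TS (by fun_prop) (by fun_prop) (by fun_prop) (by fun_prop) ?_ hγ ?_ ?_ ?_
      · intro z
        exact ⟨le_max_of_le_left (hlt z.2).1, max_le (hlt z.2).2 (by linarith [z.1.2.2])⟩
      · intro z _ _
        exact A.per _
      · intro z hz _
        refine key (z.2 0) _ fun h1 => ?_
        rw [hz, tau_half, mul_one, h1]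
        exact max_eq_left (by linarith [z.1.2.2])
      · intro z hz
        show A.R _ (γ (max (lam (z.2 0) * tau (z.2 1)) ((z.1 : ℝ) / 2))) =
          A.R _ (γ (max (lam (z.2 0) * tau (z.2 1)) ((z.1 : ℝ) / 2)))
        rw [hz]
        exact (hf _).trans (hf _).symm
    · intro t
      show TS A γ _ _ (max (lam (t 0) * tau (t 1)) (((0 : I) : ℝ) / 2)) _ = _
      rw [Icc.coe_zero, zero_div, max_eq_left (hlt t).1]
      rfl
    · intro t
      show TS A γ _ _ (max (lam (t 0) * tau (t 1)) (((1 : I) : ℝ) / 2)) _ = _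
      rw [Icc.coe_one]
    · have hb : ∀ (u : I) (t : Fin 2 → I), t ∈ Cube.boundary (Fin 2) →
          TS A γ (2 * Real.pi) (rho (t 0)) (max (lam (t 0) * tau (t 1)) ((u : ℝ) / 2)) (t 1) =
            γ ((u : ℝ) / 2) := by
        intro u t ht
        rw [mul_tau_bd lam_zero lam_one ht, max_eq_right (by linarith [u.2.1])]
        unfold TS
        rw [if_pos (show (u : ℝ) / 2 ≤ 1 / 2 by linarith [u.2.2])]
        split_ifs
        · exact A.per _
        · rfl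
      intro u t ht t' ht'
      exact (hb u t ht).trans (hb u t' ht').symm
  -- step 2
  have s2 : Hfree
      (fun t => TS A γ (2 * Real.pi) (rho (t 0)) (max (lam (t 0) * tau (t 1)) (1 / 2)) (t 1))
      (fun t => TS A γ (2 * Real.pi) (rho (t 0)) (1 / 2 + lam (t 0) * tau (t 1) / 2) (t 1)) := by
    refine Hfree.mk' (fun z => TS A γ (2 * Real.pi) (rho (z.2 0))
      ((1 - (z.1 : ℝ)) * max (lam (z.2 0) * tau (z.2 1)) (1 / 2) +
        z.1 * (1 / 2 + lam (z.2 0) * tau (z.2 1) / 2)) (z.2 1)) ?_ ?_ ?_ ?_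
    · refine cont_TS (by fun_prop) (by fun_prop) (by fun_prop) (by fun_prop) ?_ hγ ?_ ?_ ?_
      · intro z
        refine conv_mem z.1.2 ⟨le_max_of_le_left (hlt z.2).1, max_le (hlt z.2).2 (by norm_num)⟩
          ⟨by linarith [(hlt z.2).1], by linarith [(hlt z.2).2]⟩
      · intro z _ _
        exact A.per _
      · intro z hz _
        refine key (z.2 0) _ fun h1 => ?_
        rw [hz, tau_half, mul_one, h1, max_eq_left (by norm_num)]
        ring
      · intro z hz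
        simp only [hz]
        exact (hf _).trans (hf _).symm
    · intro t
      simp only [Icc.coe_zero, sub_zero, one_mul, zero_mul, add_zero]
    · intro t
      simp only [Icc.coe_one, sub_self, one_mul, zero_mul, zero_add]
    · have hb : ∀ (u : I) (t : Fin 2 → I), t ∈ Cube.boundary (Fin 2) →
          TS A γ (2 * Real.pi) (rho (t 0))
            ((1 - (u : ℝ)) * max (lam (t 0) * tau (t 1)) (1 / 2) +
              u * (1 / 2 + lam (t 0) * tau (t 1) / 2)) (t 1) = γ (1 / 2) := by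
        intro u t ht
        rw [mul_tau_bd lam_zero lam_one ht, max_eq_right (by norm_num)]
        have e : (1 - (u : ℝ)) * (1 / 2) + u * (1 / 2 + 0 / 2) = 1 / 2 := by ring
        rw [e]
        unfold TS
        rw [if_pos (show (1 / 2 : ℝ) ≤ 1 / 2 from le_rfl)]
        split_ifs
        · exact A.per _
        · rfl
      intro u t ht t' ht'
      exact (hb u t ht).trans (hb u t' ht').symm
  -- step 3
  have hγk : ContinuousOn (fun v : ℝ => γ (1 / 2 + v / 2)) (Icc (0 : ℝ) 1) := by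
    refine hγ.comp (by fun_prop) ?_
    intro v hv
    exact ⟨by linarith [hv.1], by linarith [hv.2]⟩
  have hk0 : (fun v : ℝ => γ (1 / 2 + v / 2)) 0 ∈ A.Fix := by
    show γ (1 / 2 + 0 / 2) ∈ A.Fix
    have e : (1 / 2 + 0 / 2 : ℝ) = 1 / 2 := by norm_num
    rw [e]
    exact hf
  have hk1 : (fun v : ℝ => γ (1 / 2 + v / 2)) 1 ∈ A.Fix := by
    show γ (1 / 2 + 1 / 2) ∈ A.Fix
    have e : (1 / 2 + 1 / 2 : ℝ) = 1 := by norm_num
    rw [e]
    exact h1f
  obtain ⟨F, f1, f2, f3, f4⟩ := hfree_qq_sqr (A := A) hPP hSQR hγk hk0 hk1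
  have s3 : Hfree
      (fun t => TS A γ (2 * Real.pi) (rho (t 0)) (1 / 2 + lam (t 0) * tau (t 1) / 2) (t 1))
      (fun t => A.sph (fun v => γ (1 / 2 + v / 2)) (sqr t)) := by
    refine Hfree.mk' F f1 ?_ f3 ?_
    · intro t
      rw [f2]
      unfold tsq TS
      split_ifs with h1 h2 h3 h3
      · have e : lam (t 0) * tau (t 1) = 0 := by linarith [(hlt t).1]
        show A.R _ (γ (1 / 2 + lam (t 0) * tau (t 1) / 2)) =
          A.R _ (γ (1 / 2 + lam (t 0) * tau (t 1) / 2))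
        rw [e]
        have e' : (1 / 2 + 0 / 2 : ℝ) = 1 / 2 := by norm_num
        rw [e']
        exact (hf _).trans (hf _).symm
      · rfl
      · have e : lam (t 0) * tau (t 1) = 0 := by linarith [(hlt t).1]
        show A.R _ (γ (1 / 2 + lam (t 0) * tau (t 1) / 2)) =
          A.R _ (γ (1 / 2 + lam (t 0) * tau (t 1) / 2))
        rw [e]
        have e' : (1 / 2 + 0 / 2 : ℝ) = 1 / 2 := by norm_num
        rw [e']
        exact (hf _).trans (hf _).symm
      · rfl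
      · rfl
    · intro u t ht t' ht'
      rw [f4 u t ht, f4 u t' ht']
  exact (s1.trans s2).trans s3

end

theorem m_MUL (hPP : StPP) (hSQR : StSQR) : StMUL := by
  intro X _ A γ y₀ hγ h00 hf0 hf h1f f g hfe hge
  have clam := cont_lam
  have crho := cont_rho
  have clam2 := cont_lam2
  have clf := cont_lf
  have l20 : lam2 0 = 0 := by unfold lam2; norm_num
  have l21 : lam2 1 = 0 := by unfold lam2; norm_num
  have lf0 : lf 0 = 0 := by
    rw [lf_lo le_rfl (by norm_num), mul_zero, lam_zero, zero_div]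
  have lf1 : lf 1 = 0 := by
    rw [lf_hi (by norm_num) le_rfl]
    have e : (2 * 1 - 1 : ℝ) = 1 := by norm_num
    rw [e, lam_one]
  have hu0 : (0 : ℝ) ∈ Icc (0 : ℝ) 1 := ⟨le_rfl, zero_le_one⟩
  have hu1 : (1 : ℝ) ∈ Icc (0 : ℝ) 1 := ⟨zero_le_one, le_rfl⟩
  let G0 : GenLoop (Fin 2) X y₀ := gsq A γ rho rho lam crho crho clam lam_zero lam_one hγ h00 hf0 hf
    h1f fun θ hθ => rho_gd hθ
  let G2 : GenLoop (Fin 2) X y₀ := gsq A γ rho rho lam2 crho crho clam2 l20 l21 hγ h00 hf0 hf h1f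
    fun θ hθ => by simpa using gd_B hu1 hθ
  let G3 : GenLoop (Fin 2) X y₀ := gsq A γ (fun θ => rho (2 * θ)) (fun θ => rho (2 * θ - 1)) lam2
    (by fun_prop) (by fun_prop) clam2 l20 l21 hγ h00 hf0 hf h1f
    fun θ hθ => by simpa using gd_C hu1 hθ
  let G4 : GenLoop (Fin 2) X y₀ := gsq A γ (fun θ => rho (2 * θ)) (fun θ => rho (2 * θ - 1)) lf
    (by fun_prop) (by fun_prop) clf lf0 lf1 hγ h00 hf0 hf h1f
    fun θ hθ => by simpa using gd_D hu1 hθ
  let G5 : GenLoop (Fin 2) X y₀ := gsq A γ (fun _ => 2 * Real.pi) rho lam continuous_const crho clam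
    lam_zero lam_one hγ h00 hf0 hf h1f fun θ hθ => two_pi_gd hθ
  have e1 : hcl f = hcl G0 := hcl_qq hPP hSQR hγ h00 hf0 h1f hfe fun t => rfl
  have e2 : hcl G0 = hcl G2 := gd_conv crho crho clam lam_zero lam_one crho crho clam2 l20 l21 hγ h00
    hf0 hf h1f (fun u hu θ hθ => gd_B hu hθ) (fun t => rfl) fun t => rfl
  have e3 : hcl G2 = hcl G3 := gd_conv crho crho clam2 l20 l21 (by fun_prop) (by fun_prop) clam2 l20
    l21 hγ h00 hf0 hf h1f (fun u hu θ hθ => gd_C hu hθ) (fun t => rfl) fun t => rfl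
  have e4 : hcl G3 = hcl G4 := gd_conv (by fun_prop) (by fun_prop) clam2 l20 l21 (by fun_prop)
    (by fun_prop) clf lf0 lf1 hγ h00 hf0 hf h1f (fun u hu θ hθ => gd_D hu hθ) (fun t => rfl)
    fun t => rfl
  -- the first path
  have hγp : ContinuousOn (fun v : ℝ => γ (v / 2)) (Icc (0 : ℝ) 1) := by
    refine hγ.comp (by fun_prop) ?_
    intro v hv
    exact ⟨by linarith [hv.1], by linarith [hv.2]⟩
  have hp0 : (fun v : ℝ => γ (v / 2)) 0 = γ 0 := by
    show γ (0 / 2) = γ 0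
    rw [zero_div]
  have hp1 : (fun v : ℝ => γ (v / 2)) 1 ∈ A.Fix := hf
  have hpf : (fun v : ℝ => γ (v / 2)) 0 ∈ A.Fix := by rw [hp0]; exact hf0
  obtain ⟨F, f1, f2, f3, f4⟩ := hfree_qq_sqr (A := A) hPP hSQR hγp hpf hp1
  let P : GenLoop (Fin 2) X y₀ := ⟨⟨tsq A (fun v : ℝ => γ (v / 2)) rho rho lam, by
      have h : tsq A (fun v : ℝ => γ (v / 2)) rho rho lam = fun t => F (0, t) :=
        funext fun t => (f2 t).symm
      rw [h]
      exact f1.comp (by fun_prop)⟩, by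
      intro t ht
      show tsq A (fun v : ℝ => γ (v / 2)) rho rho lam t = y₀
      rw [← f2, f4 0 t ht]
      exact hp0.trans h00⟩
  have e6 : hcl g = hcl P := hcl_qq hPP hSQR hγp (hp0.trans h00) hpf hp1 hge fun t => rfl
  have e5 : G4 = GenLoop.transAt 0 P G5 := by
    refine GenLoop.ext _ _ fun t => ?_
    show tsq A γ (fun θ => rho (2 * θ)) (fun θ => rho (2 * θ - 1)) lf t =
      if (t 0 : ℝ) ≤ 1 / 2 then
        tsq A (fun v : ℝ => γ (v / 2)) rho rho lam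
          (Function.update t 0 (projIcc 0 1 zero_le_one (2 * (t 0 : ℝ))))
      else tsq A γ (fun _ => 2 * Real.pi) rho lam
        (Function.update t 0 (projIcc 0 1 zero_le_one (2 * (t 0 : ℝ) - 1)))
    split_ifs with h
    · exact split_lo h
    · exact split_hi h
  refine ⟨G5, ?_, hfree_X hPP hSQR hγ hf0 hf h1f⟩
  rw [e1, e2, e3, e4, e5, hcl_trans, e6]

end Pool.Agent.Helper70.T
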