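import Pool.Agent.Helper70.BI.T.AsmT0
import Pool.Agent.Helper8.BI6.M_ABS
import Pool.Agent.Helper61.BI6.M_FIXP

/-!
# Project BI, stage 6 (T): final assembly
-/

set_option autoImplicit false

open Pool.Agent.Helper18.BI Pool.Agent.Helper65.Barb

namespace Pool.Agent.Helper70.T

theorem hSPN : StSPN := hSPN_of (m_ABS m_PP hMUL) m_FIXP

end Pool.Agent.Helper70.T
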