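import Pool.Agent.Helper18.BI.S5.FinDefs8
import Pool.Agent.Helper18.BI.R.StR4
import Pool.Agent.Helper34.BI5.VK5
import Pool.Agent.Helper70.BI.StF2

/-!
# Project BI, stage 6 (T): barbells invariant under a rotation (statements)

Every barbell of the 4-sphere which is invariant under the rotation is elementary (in the sense of stage 5), so its
implantation is isotopic to the identity or to `W`.

Idea.  `X` = the complement of the fixed cuff, with the circle action; `y₀` = the midpoint of the bar, a fixed point.  A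
path `γ` in `X` from `y₀` to a fixed point sweeps out, under the rotation, a based sphere `A.sph γ`; let `s γ` be its
class.  The moved cuff is freely homotopic to the sphere of such a path.  If `γ = p * k` (concatenation at a FIXED
point) then `s γ = s p * x`, where `x` is freely homotopic to the sphere of `k` (module MUL).  Hence `s (p * m * k)`
and `s (p * k)` differ by a quotient of two freely homotopic elements if `m` is a loop of fixed points, for instance
the meridian of the fixed cuff at one of its poles.  By the van Kampen argument of helper34 all paths `γ` with the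
same end have the same `s γ` modulo such quotients, and `s γ = 1` for a path of fixed points.

Statements as `Prop` definitions, with complete proofs in the docstrings; a module `M_X` proves `theorem m_X : StX`
(possibly from other statements as hypotheses `(h : StY)`).
-/

set_option autoImplicit false

open scoped Topology unitInterval Manifold ContDiff ComplexConjugate
open Set Pool.Agent.Helper65.Barb Pool.Agent.Helper18.BI
open Pool.Agent.Helper18.FinR (sqr)
open Pool.Agent.Helper18.BI.R (S2)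

namespace Pool.Agent.Helper70.T

/-- A family of self-maps of `X` with parameter in `[0, 2π]` which begins and ends with the identity (for instance a
circle action). -/
structure Act (X : Type) [TopologicalSpace X] where
  R : ℝ → X → X
  cont : Continuous fun z : ℝ × X => R z.1 z.2
  zero : ∀ x, R 0 x = x
  per : ∀ x, R (2 * Real.pi) x = x

/-- the fixed points -/
def Act.Fix {X : Type} [TopologicalSpace X] (A : Act X) : Set X := {x | ∀ ρ, A.R ρ x = x}

/-- the point of the unit sphere with longitude `ρ` and colatitude `π v` -/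
noncomputable def PP (ρ v : ℝ) : R3 :=
  (Real.cos (Real.pi * v), (Real.sin (Real.pi * v) : ℂ) * Complex.exp (ρ * Complex.I))

/-- colatitude divided by `π` -/
noncomputable def lat (m : R3) : ℝ := Real.arccos m.1 / Real.pi

/-- longitude in `[0, 2π)` -/
noncomputable def lon (m : R3) : ℝ := if 0 ≤ m.2.arg then m.2.arg else m.2.arg + 2 * Real.pi

/-- the sphere swept out by the path `γ` -/
noncomputable def Act.sph {X : Type} [TopologicalSpace X] (A : Act X) (γ : ℝ → X) (m : R3) : X :=
  A.R (lon m) (γ (lat m))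

/-- MODULE PP.  Coordinates on the unit sphere.
Proof.  (1) `cos² + sin² = 1`.  (2) Let `m = PP ρ v`.  `lat m = arccos (cos (π v)) / π = v` (`Real.arccos_cos`).  If `v = 0` or `v = 1` then `γ v` is a fixed point, both sides are `γ v`.  If `0 < v < 1`: `m.2 = sin (π v) exp (ρ I)` with `sin (π v) > 0`;
for `ρ ≤ π` (`ρ ≥ 0 > -π`) `arg m.2 = ρ` (`Complex.arg_mul_cos_add_sin_mul_I` or `Complex.arg_real_mul`, `Complex.arg_exp_mul_I`), so `lon m = ρ`; for `π < ρ < 2π`: `exp (ρ I) = exp ((ρ - 2π) I)`, `arg = ρ - 2π < 0`, `lon m = ρ`;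
for `ρ = 2π`: `lon m = 0` and `A.R 0 x = x = A.R (2π) x`.  (3) `m.1 ∈ [-1,1]`; `cos (π lat m) = m.1` (`Real.cos_arccos`), `sin (π lat m) = √(1 - m.1²) = ‖m.2‖` (`Real.sin_arccos`), `‖z‖ exp (arg z I) = z` (`Complex.norm_mul_exp_arg_mul_I`) and `exp ((arg z + 2π) I) = exp (arg z I)`.
(4) `q : Z × (Icc 0 (2π) × Icc 0 1) → Z × S2`, `q (z, ρ, v) = (z, PP ρ v)` is a quotient map: `PP` restricted to the compact rectangle is continuous with values in the Hausdorff space `S2`, hence proper, so `id × PP` is proper (`IsProperMap.prodMap`, `isProperMap_id`, `Continuous.isProperMap`), closed, continuous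
and surjective (by (3)), `IsClosedMap.isQuotientMap` (or the name in Mathlib).  By (2) the composition with `q` is `(z, ρ, v) ↦ A.R ρ (Γ (z, v))`, continuous. -/
def StPP : Prop :=
  (∀ ρ v, PP ρ v ∈ S2) ∧
  (∀ (X : Type) [TopologicalSpace X] (A : Act X) (γ : ℝ → X), γ 0 ∈ A.Fix → γ 1 ∈ A.Fix →
    ∀ ρ ∈ Icc (0 : ℝ) (2 * Real.pi), ∀ v ∈ Icc (0 : ℝ) 1, A.sph γ (PP ρ v) = A.R ρ (γ v)) ∧
  (∀ m ∈ S2, PP (lon m) (lat m) = m ∧ lon m ∈ Icc (0 : ℝ) (2 * Real.pi) ∧
    lat m ∈ Icc (0 : ℝ) 1) ∧
  (∀ (X Z : Type) [TopologicalSpace X] [TopologicalSpace Z] (A : Act X) (Γ : Z × ℝ → X),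
    ContinuousOn Γ (univ ×ˢ Icc (0 : ℝ) 1) → (∀ z, Γ (z, 0) ∈ A.Fix) → (∀ z, Γ (z, 1) ∈ A.Fix) →
    ContinuousOn (fun p : Z × R3 => A.sph (fun v => Γ (p.1, v)) p.2) (univ ×ˢ S2))

/-! ## homotopies of maps of the square -/

/-- `f` and `g` are homotopic relative to the boundary, which is mapped to `y`. -/
def Hrel {X : Type} [TopologicalSpace X] (y : X) (f g : (Fin 2 → I) → X) : Prop :=
  ∃ F : ℝ × (Fin 2 → I) → X, ContinuousOn F (Icc (0 : ℝ) 1 ×ˢ univ) ∧ (∀ t, F (0, t) = f t) ∧
    (∀ t, F (1, t) = g t) ∧ ∀ u ∈ Icc (0 : ℝ) 1, ∀ t ∈ Cube.boundary (Fin 2), F (u, t) = y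

/-- `f` and `g`, constant on the boundary of the square, are freely homotopic as maps of the sphere. -/
def Hfree {X : Type} [TopologicalSpace X] (f g : (Fin 2 → I) → X) : Prop :=
  ∃ F : ℝ × (Fin 2 → I) → X, ContinuousOn F (Icc (0 : ℝ) 1 ×ˢ univ) ∧ (∀ t, F (0, t) = f t) ∧
    (∀ t, F (1, t) = g t) ∧ ∀ u ∈ Icc (0 : ℝ) 1, ∀ t ∈ Cube.boundary (Fin 2),
      ∀ t' ∈ Cube.boundary (Fin 2), F (u, t) = F (u, t')

/-- the class of a based map of the square -/
def hcl {X : Type} [TopologicalSpace X] {y : X} (f : GenLoop (Fin 2) X y) :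
    HomotopyGroup (Fin 2) X y := Quotient.mk _ f

/-- `min 1 (min (3 θ) (3 - 3 θ))` -/
noncomputable def lam (θ : ℝ) : ℝ := min 1 (min (3 * θ) (3 - 3 * θ))

/-- the angle, from `0` to `2π` for `θ ∈ [1/3, 2/3]` -/
noncomputable def rho (θ : ℝ) : ℝ := 2 * Real.pi * max 0 (min 1 (3 * θ - 1))

/-- `min (2 t) (2 - 2 t)` -/
noncomputable def tau (t : ℝ) : ℝ := min (2 * t) (2 - 2 * t)

/-- another parametrization of the sphere by the square -/
noncomputable def qq (t : Fin 2 → I) : R3 :=
  if (t 1 : ℝ) ≤ 1 / 2 then PP (rho (t 0)) (lam (t 0) * tau (t 1)) else PP 0 (lam (t 0) * tau (t 1))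

/-- MODULE SQR.  The parametrizations `qq` and `sqr` of the sphere by the square are homotopic relative to the boundary.
Proof.  `qq` is continuous: on the line `t 1 = 1/2` (`tau = 1`) the two formulas agree: `PP ρ λ = PP 0 λ` if `ρ = 0` or `ρ = 2π` (`t 0 ≤ 1/3` or `≥ 2/3`) or `λ = 1` (otherwise).  `sqr` is continuous.
CLAIM: `qq t ≠ - sqr t` for all `t`.  Put `θ = t 0`, `s = t 1`.  `Im` of the second component: `(sqr t).2.im = 2 sin (πθ) cos (πθ) sin² (πs)`; `(qq t).2.im = sin (π λ τ) sin ρ` or `0`, with `λ τ ∈ [0,1]`, and `ρ ∈ [0, π]` for `θ ≤ 1/2`, `ρ ∈ [π, 2π]` for `θ ≥ 1/2`.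
If `0 < θ < 1/2` and `0 < s < 1`: `(sqr t).2.im > 0` and `(qq t).2.im ≥ 0`: no antipodes.  If `1/2 < θ < 1`, `0 < s < 1`: `(sqr t).2.im < 0`, `(qq t).2.im ≤ 0`.  If `θ = 1/2`: `rho = π`, `lam = 1`, and `qq t = (cos 2πs, - sin 2πs) = sqr t` in both cases
(`sqr t = (1 - 2 sin² πs, -2 sin πs cos πs)`).  On the boundary `qq t = (1, 0) = sqr t`.  Two equal unit vectors are not antipodal.
Hence `(1 - u) qq t + u sqr t ≠ 0` for `u ∈ [0,1]` (if it is `0` then the norms give `1 - u = u`, so `qq t = - sqr t`), and `G (u, t)` = this vector divided by `√(nsq ..)`. -/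
def StSQR : Prop :=
  ∃ G : ℝ × (Fin 2 → I) → R3, ContinuousOn G (Icc (0 : ℝ) 1 ×ˢ univ) ∧
    (∀ u ∈ Icc (0 : ℝ) 1, ∀ t, G (u, t) ∈ S2) ∧ (∀ t, G (0, t) = qq t) ∧ (∀ t, G (1, t) = sqr t) ∧
    ∀ u ∈ Icc (0 : ℝ) 1, ∀ t ∈ Cube.boundary (Fin 2), G (u, t) = (1, 0)

/-- MODULE SQD.  A homotopy of maps of the square, constant on the boundary at each time, comes from a homotopy of maps
of the sphere.
Proof.  The map `sqr` is continuous, onto `S2` (`StMQ` (4); `sqr t = mq (t 0) (t 1)` by definition) and `sqr t = sqr t'` only if `t = t'` or both are in the boundary: if `(sqr t).1 ≠ 1` then `c = sin (π t 0) sin (π t 1) > 0` is determined by the first component (`1 - 2 c²`),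
`cos (π t 1) = - re / (2 c)` determines `t 1 ∈ (0,1)` (`Real.injOn_cos`), then `sin (π t 1)`, `sin (π t 0)` and `cos (π t 0)` are determined.  If `(sqr t).1 = 1` then `sin (π t 0) sin (π t 1) = 0`: `t` is in the boundary (and so is `t'`).
`id × sqr : Icc 0 1 × (Fin 2 → I) → Icc 0 1 × S2` is continuous and onto, from a compact to a Hausdorff space, so it is a quotient map; `F` descends. -/
def StSQD : Prop :=
  ∀ (X : Type) [TopologicalSpace X] (F : ℝ × (Fin 2 → I) → X),
    ContinuousOn F (Icc (0 : ℝ) 1 ×ˢ univ) →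
    (∀ u ∈ Icc (0 : ℝ) 1, ∀ t ∈ Cube.boundary (Fin 2), ∀ t' ∈ Cube.boundary (Fin 2),
      F (u, t) = F (u, t')) →
    ∃ h : ℝ × R3 → X, ContinuousOn h (Icc (0 : ℝ) 1 ×ˢ S2) ∧
      ∀ u ∈ Icc (0 : ℝ) 1, ∀ t, h (u, sqr t) = F (u, t)

/-! ## the calculus of swept spheres (helper70: modules TSC, MUL) -/

/-- MODULE MUL (helper70).  Concatenation of two paths at a fixed point. -/
def StMUL : Prop :=
  ∀ (X : Type) [TopologicalSpace X] (A : Act X) (γ : ℝ → X) (y₀ : X),
    ContinuousOn γ (Icc (0 : ℝ) 1) → γ 0 = y₀ → γ 0 ∈ A.Fix → γ (1 / 2) ∈ A.Fix → γ 1 ∈ A.Fix →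
    ∀ f g : GenLoop (Fin 2) X y₀, (∀ t, f t = A.sph γ (sqr t)) →
      (∀ t, g t = A.sph (fun v => γ (v / 2)) (sqr t)) →
      ∃ x : GenLoop (Fin 2) X y₀,
        hcl f = hcl g * hcl x ∧
        Hfree x (fun t => A.sph (fun v => γ (1 / 2 + v / 2)) (sqr t))

/-- the quotients of freely homotopic elements of the second homotopy group -/
def drift {X : Type} [TopologicalSpace X] (y₀ : X) : Set (HomotopyGroup (Fin 2) X y₀) :=
  {v | ∃ (x x' : GenLoop (Fin 2) X y₀) (κ : (Fin 2 → I) → X), Hfree x κ ∧ Hfree x' κ ∧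
    v = hcl x * (hcl x')⁻¹}

/-- MODULE ABS.  The van Kampen argument for swept spheres.
Notation: `x₀ = e y₀`; for a path `p` in `X` from `x₀` to a fixed point, `s p ∈ HomotopyGroup (Fin 2) X x₀` is the class of the `GenLoop` `t ↦ A.sph (p.extend) (sqr t)` (continuous by `StPP` (4) with `Z = Unit` and continuity of `sqr`; on the boundary `sqr t = (1, 0)`, `lat (1,0) = 0`: value `x₀`).
(0) If `p`, `p'` are homotopic (rel ends) then `s p = s p'`: `StPP` (4) with `Z = unitInterval`, `Γ (u, v)` = the homotopy; equality of classes from a homotopy relative to the boundary (`Quotient.sound`, `ContinuousMap.HomotopyRel`).  So `s` is defined on `Path.Homotopic.Quotient x₀ x₁`, `x₁` fixed.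
(1) `StMUL` with `γ = (p.trans k).extend` (`γ (v/2) = p.extend v`, `γ (1/2 + v/2) = k.extend v` for `v ∈ [0,1]`; note that `A.sph γ m` for `m ∈ S2` only uses `γ` on `[0,1]` as `lat m ∈ [0,1]`): `s (p.trans k) = s p * ⟦x⟧` with `Hfree x (A.sph (k.extend) ∘ sqr)`, if the end of `p` is a fixed point.
(2) If `m` is a path of fixed points then `s (p.trans m) = s p` (`Γ (u, v) = (p.trans m).extend ((1 - u/2) v)`, its ends are fixed points: `v = 1`: `1 - u/2 ≥ 1/2`, in the part `m`).  If all points of `p` are fixed then `s p = 1` (`Γ (u, v) = p ((1-u) v)`, at `u = 1` the constant loop).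
(3) Let `D = Subgroup.closure (drift x₀)`.  For `y : Off K` and homotopy classes `g`, `g'` of paths from `y₀` to `y` in `Off K` put `Rel y g g' :=` for all `y₁ : Off K` with `e y₁` fixed and all classes `b` of paths from `y` to `y₁`: `s (e (g.trans b)) * (s (e (g'.trans b)))⁻¹ ∈ D`
(`e` of a path: `Path.map`, of a class: `Path.Homotopic.Quotient.map`).  This is `RelP K y₀ Rel` (commutative group, `Path.Homotopic.Quotient.trans_assoc`).
(4) Let `m` be the meridian: `m t = T.Q (z.1 + t · tpi, z.2)`, all `e (m t)` are fixed points.  For `g` from `y₀` to `y₁ = m 0`: `Rel y₁ (g.trans (cl m)) g`: for `b` from `y₁`: by (1) at the fixed point `e y₁`: `s (g m b) = s (g m) * ⟦x⟧`, `s (g b) = s g * ⟦x'⟧` with `x`, `x'` freely homotopic to the same `A.sph ((e b).extend) ∘ sqr`,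
and `s (g m) = s g` by (2); the group is commutative, so the quotient is `⟦x⟧ * ⟦x'⟧⁻¹ ∈ drift`.
(5) `vk` (`Pool/Agent/Helper34/BI5/VK4.lean`) gives `Rel y (cl p) (cl p')` for all `p`, `p'`; apply it with `b = refl` and `p'` the path of fixed points: `s (e p) * 1 ∈ D`. -/
def StABS : Prop :=
  ∀ (X : Type) [TopologicalSpace X] (A : Act X) (K : Set R4) (e : Helper34.S5.Off K → X)
    (V : Type) [NormedAddCommGroup V] [NormedSpace ℝ V] (T : Helper34.S5.Tub K V) (z : ℂ × V)
    (y₀ y : Helper34.S5.Off K) (p p' : Path y₀ y), IsClosed K → Continuous e →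
    z ∈ {ℓ : ℂ | ℓ.re < T.κ} ×ˢ T.P →
    (∀ (t : ℝ) (y' : Helper34.S5.Off K),
      (y' : R4) = T.Q (z.1 + (t : ℂ) * Helper34.S5.tpi, z.2) → e y' ∈ A.Fix) →
    (∀ t, e (p' t) ∈ A.Fix) →
    ∀ f : GenLoop (Fin 2) X (e y₀), (∀ t, f t = A.sph (fun v => e (p.extend v)) (sqr t)) →
      hcl f ∈ Subgroup.closure (drift (e y₀))

/-! ## geometry -/

/-- MODULE FIXP.  Two fixed points of the rotation can be joined by a path of fixed points avoiding two given points.
Proof.  The set of fixed points in the 4-sphere is the set `Fx` of points with `x 3 = x 4 = 0`, homeomorphic to the unit sphere of `EuclideanSpace ℝ (Fin 3)`.  If `a` is one of the two points to be avoided, `Fx \ {a}` is homeomorphic to a plane by stereographic projection (or: use `stereographic` in `EuclideanSpace ℝ (Fin 3)`),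
and a plane minus a point is path connected (`isPathConnected_compl_singleton_of_one_lt_rank`).  If `a ∉ Fx` (or `b ∉ Fx`) it is easier (avoid another point).  Alternative: explicit family of paths from `x` to `y` in `Fx`, two of which are disjoint from `{a, b}`. -/
def StFIXP : Prop :=
  ∀ a b x y : S4, x ≠ a → x ≠ b → y ≠ a → y ≠ b → (∀ θ, spin4 θ x = x) → (∀ θ, spin4 θ y = y) →
    ∃ p : Path x y, ∀ t, p t ≠ a ∧ p t ≠ b ∧ ∀ θ, spin4 θ (p t) = p t

/-- MODULE CHT.  A chart of the 4-sphere containing the spine of a barbell and all fixed points of the rotation, and the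
tube.
Proof.  `L = {x : S4 | x 3 = 0 ∧ x 4 = 0}` (the fixed points: `spin4 π x = x` gives `x 3 = x 4 = 0`, and conversely) is closed with empty interior; `B '' SP` is compact with empty interior (see `Pool/Agent/Helper18/BI/M_X2.lean`; `SP` is contained in the hyperplane `s = 1/2`), so the union is compact with empty interior (`interior_union_isClosed_of_interior_empty`).
`StX2c` gives `c`.  `StX3` for `c`, `B`, `SP`: `F = fun p => Function.invFun c (B p)` is `EmbOn 𝓘(ℝ, R4) F SP` and `c (F p) = B p` on an open `U ⊇ SP`.  `K = F '' sph 1`: `x ∈ K ↔ c x ∈ B '' sph 1` (`c` is injective).  -/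
def StCHT : Prop :=
  ∀ B : PartialDiffeomorph 𝓘(ℝ, R4) (𝓡 4) R4 S4 ∞, SP ⊆ B.source →
    ∃ (c : R4 → S4) (G : R4 → R4) (U : Set R4), EmbOn (𝓡 4) c univ ∧
      (∀ x : S4, (∀ θ, spin4 θ x = x) → x ∈ range c) ∧ EmbOn 𝓘(ℝ, R4) G SP ∧
      IsOpen U ∧ SP ⊆ U ∧ (∀ p ∈ U, c (G p) = B p) ∧
      (∀ x, x ∈ G '' sph 1 ↔ c x ∈ B '' sph 1)

/-- MODULE SPN (helper70).  Rotation invariant barbells are elementary. -/
def StSPN : Prop :=
  ∀ B : PartialDiffeomorph 𝓘(ℝ, R4) (𝓡 4) R4 S4 ∞, IsSpun B → Helper18.FinT.Elementary B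

end Pool.Agent.Helper70.T
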