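import Pool.Agent.Helper18.BI.S5.M_FIN8
import Pool.Agent.Helper70.BI.T.StT

/-!
# Project BI, stages 5 and 6: the three final theorems in the vocabulary of the hand-ins
-/

set_option autoImplicit false

open scoped Manifold ContDiff
open Pool.Agent.Helper65.Barb
open Pool.Agent.Helper70.Fin (Emb)
open Pool.Agent.Helper18.FinR (Pi2)
open Pool.Agent.Helper18 Pool.Agent.Helper18.FinS

namespace Pool.Agent.Helper70.T

/-- the homomorphism -/
def StHom : Prop :=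
  ∃ (W : S4 → S4) (B₀ : Emb), IsImplantation B₀ W ∧ BoundsDisjointBalls B₀ ∧
    Isotopic (fun x => W (W x)) (fun x => x) ∧ IsCentral W ∧
    ∀ (B : Emb) (y₀ : Off B), IsBarbell B → IsBase B y₀ →
      (∀ B' : Emb, IsBarbell B' → SameFixed B B' → ∃ z, IsClass B y₀ B' z) ∧
      ∃ Φ : Pi2 (fixedCuff B) y₀ → S4 → S4,
        (∀ z ∈ gen (MovedClasses B y₀), ∀ z' ∈ gen (MovedClasses B y₀),
          UpTo W (Φ (z * z')) (fun x => Φ z (Φ z' x))) ∧
        (∀ (B' : Emb) (φ : S4 → S4) (z : Pi2 (fixedCuff B) y₀), IsImplantation B' φ →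
          SameFixed B B' → IsClass B y₀ B' z → UpTo W φ (Φ z)) ∧
        ∀ z ∈ gen (MovedClasses B y₀), z ∈ gen ({v | IsParallelClass B y₀ v} ∪ FinT.Drift B y₀) →
          UpTo W (Φ z) (fun x => x)

/-- elementary barbells -/
def StElem : Prop :=
  ∃ (W : S4 → S4) (B₀ : Emb), IsImplantation B₀ W ∧ BoundsDisjointBalls B₀ ∧
    Isotopic (fun x => W (W x)) (fun x => x) ∧ IsCentral W ∧
    ∀ (B : Emb) (φ : S4 → S4), FinT.Elementary B → IsImplantation B φ → UpTo W φ (fun x => x)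

/-- rotation invariant barbells -/
def StSpun : Prop :=
  ∃ (W : S4 → S4) (B₀ : Emb), IsImplantation B₀ W ∧ BoundsDisjointBalls B₀ ∧
    Isotopic (fun x => W (W x)) (fun x => x) ∧ IsCentral W ∧
    ∀ (B : Emb) (φ : S4 → S4), IsSpun B → IsImplantation B φ → UpTo W φ (fun x => x)

theorem stHom (h : Pool.Agent.Helper18.BI.S5.StFinal8) : StHom := by
  obtain ⟨W, B₀, h1, h2, h3, h4, h5, -, -⟩ := h
  refine ⟨W, B₀, h1, h2, h3, h4, fun B y₀ hB hy => ?_⟩
  obtain ⟨e1, Φ, e2, e3, e4⟩ := h5 B y₀ hB hy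
  refine ⟨e1, Φ, e2, e3, fun z hz hz' => e4 z hz ?_⟩
  refine Subgroup.closure_mono ?_ hz'
  rintro v (hv | hv)
  · exact Or.inl (Or.inr hv)
  · exact Or.inr hv

theorem stElem (h : Pool.Agent.Helper18.BI.S5.StFinal8) : StElem := by
  obtain ⟨W, B₀, h1, h2, h3, h4, -, -, h5⟩ := h
  exact ⟨W, B₀, h1, h2, h3, h4, h5⟩

theorem stSpun (h : Pool.Agent.Helper18.BI.S5.StFinal8) (hS : StSPN) : StSpun := by
  obtain ⟨W, B₀, h1, h2, h3, h4, -, -, h5⟩ := h
  exact ⟨W, B₀, h1, h2, h3, h4, fun B φ hB => h5 B φ (hS B hB)⟩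

end Pool.Agent.Helper70.T
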