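import Pool.Agent.Helper70.BI.AsmE0
import Pool.Agent.Helper18.BI.R.M_MQ
import Pool.Agent.Helper70.BI.T.M_MUL
import Pool.Agent.Helper70.BI.T.M_SPN
import Pool.Agent.Helper67.BI6.M_PP
import Pool.Agent.Helper4.BI6.M_SQR
import Pool.Agent.Helper99.BI6.M_SQD
import Pool.Agent.Helper71.BI6.M_CHT

/-!
# Project BI, stage 6 (T): assembly
-/

set_option autoImplicit false

open Pool.Agent.Helper18.BI Pool.Agent.Helper65.Barb

namespace Pool.Agent.Helper70.T

theorem hMUL : StMUL := m_MUL m_PP m_SQR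

theorem hCHT : StCHT := m_CHT Pool.Agent.Helper70.BI.hX2c Pool.Agent.Helper18.BI.hX3

theorem hSPN_of (hABS : StABS) (hFIXP : StFIXP) : StSPN :=
  m_SPN m_PP m_SQD hABS hFIXP hCHT Pool.Agent.Helper18.BI.R.m_MQ

end Pool.Agent.Helper70.T
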